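import Pool.Agent.Q184.BG.Main
import Pool.Agent.Q184.BG.Sym

/-!
# MP_5c36f9_al, Q1

There is a Bergman group with a slowly oscillating function which is not constant at infinity; and
on the group of all permutations of an arbitrary set every slowly oscillating function is constant
at infinity.
-/

set_option autoImplicit false

namespace Pool.Agent.Results.MP_5c36f9_al.BergmanNotConstant

open Set Topology
open scoped Pointwise

universe u

/-- The ball `{x} ∪ Fx` of the finitary ballean of `G`. -/
def ball {G : Type u} [Group G] (F : Set G) (x : G) : Set G :=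
  {x} ∪ (fun g => g * x) '' F

/-- Slowly oscillating functions on the finitary ballean of `G`: for every finite `F` and every
`ε > 0` there is a finite `B` with `diam f({x} ∪ Fx) < ε` for all `x` outside `B`. -/
def SlowlyOscillating {G : Type u} [Group G] (f : G → ℝ) : Prop :=
  ∀ F : Set G, F.Finite → ∀ ε : ℝ, 0 < ε → ∃ B : Set G, B.Finite ∧
    ∀ x ∈ univ \ B, Metric.diam (f '' ball F x) < ε

/-- `f` is constant at infinity: there is `c` such that for every neighbourhood `O` of `c` the set
`G ∖ f⁻¹(O)` is finite. -/
def ConstantAtInfinity {G : Type u} (f : G → ℝ) : Prop :=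
  ∃ c : ℝ, ∀ O ∈ 𝓝 c, (univ \ f ⁻¹' O).Finite

/-- `G` is Bergman: there is no strictly increasing sequence `X₀ ⊂ X₁ ⊂ …` of subsets of `G` with
union `G`, all of them closed under inversion, and with `Xₙ Xₙ ⊆ Xₙ₊₁` for all `n`. -/
def IsBergman (G : Type u) [Group G] : Prop :=
  ¬ ∃ X : ℕ → Set G, StrictMono X ∧ (⋃ n, X n) = univ ∧
    (∀ n, X n = (X n)⁻¹) ∧ (∀ n, X n * X n ⊆ X (n + 1))

theorem result :
    (∃ (G : Type) (_ : Group G), IsBergman G ∧
      ∃ f : G → ℝ, SlowlyOscillating f ∧ ¬ ConstantAtInfinity f) ∧
    (∀ (X : Type u) (f : Equiv.Perm X → ℝ), SlowlyOscillating f → ConstantAtInfinity f) := by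
  constructor
  · obtain ⟨G, hG, f, hd, hso, h1, h0⟩ := Pool.Agent.Q184.BG.core
    refine ⟨G, hG, ?_, f, ?_, ?_⟩
    · rintro ⟨X, hX, hU, hinv, hmul⟩
      obtain ⟨n, hn⟩ := Pool.Agent.Q184.BG.exhaust (X := X) hX.monotone
        (fun n g hg => by
          rw [hinv n]
          simpa using hg)
        (fun n g hg h hh => hmul n (Set.mul_mem_mul hg hh)) hd
        (fun g => by
          have : g ∈ ⋃ n, X n := by rw [hU]; exact mem_univ g
          exact mem_iUnion.1 this)
      have h2 := hX (Nat.lt_succ_self n)
      rw [hn] at h2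
      exact absurd (subset_univ (X n.succ)) (not_le_of_gt h2)
    · intro F hF ε hε
      refine ⟨⋃ s ∈ F, {g | ε / 3 ≤ |f (s * g) - f g|},
        hF.biUnion (fun s _ => hso s (ε / 3) (by linarith)), ?_⟩
      intro x hx
      have hx' : ∀ s ∈ F, |f (s * x) - f x| < ε / 3 := by
        intro s hs
        by_contra hc
        exact hx.2 (mem_biUnion hs (not_lt.1 hc))
      have hz : ∀ z ∈ f '' ball F x, |z - f x| ≤ ε / 3 := by
        rintro _ ⟨y, hy, rfl⟩
        rcases hy with hy | ⟨s, hs, rfl⟩
        · rw [mem_singleton_iff.1 hy, sub_self, abs_zero]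
          linarith
        · exact (hx' s hs).le
      have : Metric.diam (f '' ball F x) ≤ 2 * (ε / 3) := by
        refine Metric.diam_le_of_forall_dist_le (by linarith) ?_
        intro a ha b hb
        have h2 := abs_le.1 (hz a ha)
        have h3 := abs_le.1 (hz b hb)
        rw [Real.dist_eq, abs_le]
        constructor <;> linarith
      linarith
    · rintro ⟨c, hc⟩
      by_cases hc0 : c = 0
      · have h2 := hc ({1}ᶜ) (isOpen_compl_singleton.mem_nhds (by
          rw [hc0]; simp))
        refine h1 (h2.subset ?_)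
        intro g hg
        refine ⟨mem_univ g, ?_⟩
        intro h3
        exact h3 hg
      · have h2 := hc ({0}ᶜ) (isOpen_compl_singleton.mem_nhds (by simpa using hc0))
        refine h0 (h2.subset ?_)
        intro g hg
        refine ⟨mem_univ g, ?_⟩
        intro h3
        exact h3 hg
  · intro X f hf
    have hso : Pool.Agent.Q184.BG.Sym.SOf f := by
      intro s
      rw [Metric.tendsto_nhds]
      intro ε hε
      obtain ⟨B, hB, hB'⟩ := hf {s} (finite_singleton s) ε hε
      rw [Filter.eventually_cofinite]
      refine hB.subset ?_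
      intro g hg
      by_contra hgB
      apply hg
      have h1 := hB' g ⟨mem_univ g, hgB⟩
      have hfin : (f '' ball {s} g).Finite :=
        ((finite_singleton g).union ((finite_singleton s).image _)).image f
      have h2 := Metric.dist_le_diam_of_mem hfin.isBounded
        (mem_image_of_mem f (show s * g ∈ ball {s} g from Or.inr ⟨s, rfl, rfl⟩))
        (mem_image_of_mem f (show g ∈ ball {s} g from Or.inl rfl))
      rw [Real.dist_eq, sub_zero, ← Real.dist_eq]
      exact lt_of_le_of_lt h2 h1
    obtain ⟨c, hc⟩ := Pool.Agent.Q184.BG.Sym.perm_main f hso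
    refine ⟨c, fun O hO => ?_⟩
    have h1 := Filter.mem_cofinite.1 (hc hO)
    rwa [← compl_eq_univ_sdiff]

end Pool.Agent.Results.MP_5c36f9_al.BergmanNotConstant
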